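import Pool.Agent.L5helper96.NC.Defs2
import Pool.Agent.L5helper11.NC.Sig
import Pool.Agent.L5helper67.DC.Points

/-!
NEARLY CUBIC, parts C1 and C2: the polynomial `F2t N r t` at `t = 0`, its continuity in `t`
and its degree.
-/

set_option autoImplicit false

namespace L5helper79.NC

open Finset MvPolynomial L5helper59.DC L5lead.NC L5helper96.NC L5helper67.DC

/-- the cell `(i, i + z)` -/
def shift (N z : ℕ) (hz : z < N) (i : Fin N) : Fin (2 * N) := ⟨i + z, by omega⟩

theorem shift_injective (N z : ℕ) (hz : z < N) : Function.Injective (shift N z hz) := by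
  intro i i' h
  have h1 := congrArg Fin.val h
  simp only [shift] at h1
  exact Fin.ext (by omega)

theorem entry_zero (N z : ℕ) (hz : z < N) (i : Fin N) (j : Fin (2 * N)) :
    C ((0 : ℂ) ^ e2 z i j) * Y2 N i j =
      if j = shift N z hz i then (X (some (⟨z, hz⟩, i)) : MvPolynomial _ ℂ) else 0 := by
  unfold e2 Y2
  by_cases h : j = shift N z hz i
  · rw [if_pos h]
    have h1 : (j : ℕ) = i + z := by rw [h]; rfl
    have h2 : ((j : ℤ) - i - z).natAbs ^ 2 = 0 := by
      rw [h1]
      push_cast
      norm_num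
    rw [h2, pow_zero, C_1, one_mul]
    rw [Finset.sum_eq_single (⟨z, hz⟩ : Fin N)]
    · rw [if_pos h1]
    · intro l _ hl
      rw [if_neg]
      intro h3
      apply hl
      apply Fin.ext
      simp only
      omega
    · intro h3
      exact absurd (mem_univ _) h3
  · rw [if_neg h]
    have h1 : (j : ℕ) ≠ i + z := by
      intro h2
      exact h (Fin.ext h2)
    have h2 : ((j : ℤ) - i - z).natAbs ^ 2 ≠ 0 := by
      apply pow_ne_zero
      intro h3
      apply h1
      have h4 := Int.natAbs_eq_zero.mp h3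
      omega
    rw [zero_pow h2, C_0, zero_mul]

/-- C1 -/
theorem F2t_zero (N r : ℕ) : F2t N r 0 = F20 N r := by
  unfold F2t F20
  congr 1
  rw [Finset.sum_range]
  refine Finset.sum_congr rfl fun z _ => ?_
  have h1 : (fun (i : Fin N) (j : Fin (2 * N)) => C ((0 : ℂ) ^ e2 z i j) * Y2 N i j) =
      fun i j => if j = shift N z z.2 i then (X (some (z, i)) : MvPolynomial _ ℂ) else 0 := by
    funext i j
    exact entry_zero N z z.2 i j
  rw [h1]
  exact L5helper11.NC.sig_partial r (shift N z z.2) (shift_injective N z z.2)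
    (fun i => X (some (z, i)))

/-- the version with coefficients in `ℂ[T]` -/
noncomputable def G2t (N r : ℕ) : MvPolynomial (Option (Fin N × Fin N)) (Polynomial ℂ) :=
  X none + ∑ z ∈ range N, sig r (fun (i : Fin N) (j : Fin (2 * N)) =>
    C (Polynomial.X ^ e2 z i j) * map Polynomial.C (Y2 N i j))

theorem map_G2t (N r : ℕ) (t : ℂ) : map (Polynomial.evalRingHom t) (G2t N r) = F2t N r t := by
  unfold G2t F2t
  rw [map_add, map_X, map_sum]
  congr 1
  refine Finset.sum_congr rfl fun z _ => ?_
  rw [map_sig]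
  congr 1
  funext i j
  rw [map_mul, map_C, MvPolynomial.map_map]
  congr 1
  · simp
  · have h1 : (Polynomial.evalRingHom t).comp Polynomial.C = RingHom.id ℂ := by
      ext x
      simp
    rw [h1, MvPolynomial.map_id]

theorem coeff_F2t (N r : ℕ) (m) (t : ℂ) :
    coeff m (F2t N r t) = (coeff m (G2t N r)).eval t := by
  rw [← map_G2t, coeff_map, Polynomial.coe_evalRingHom]

/-- C2 -/
theorem F2t_tendsto (N r : ℕ) (m) :
    Filter.Tendsto (fun k : ℕ => coeff m (F2t N r (1 / ((k : ℂ) + 1)))) Filter.atTop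
      (nhds (coeff m (F2t N r 0))) := by
  simp only [coeff_F2t]
  have h1 : Filter.Tendsto (fun k : ℕ => (1 : ℂ) / ((k : ℂ) + 1)) Filter.atTop (nhds 0) :=
    tendsto_one_div_add_atTop_nhds_zero_nat (𝕜 := ℂ)
  exact ((coeff m (G2t N r)).continuous.tendsto 0).comp h1

section Degree

variable {ι γ ρ : Type*}

/-- all coefficients of `P` have total degree at most `d` -/
def CD (d : ℕ) (P : MvPolynomial γ (MvPolynomial ι ℂ)) : Prop := ∀ m, (coeff m P).totalDegree ≤ d

theorem CD_one : CD 0 (1 : MvPolynomial γ (MvPolynomial ι ℂ)) := by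
  classical
  intro m
  rw [coeff_one]
  split_ifs
  · rw [totalDegree_one]
  · rw [totalDegree_zero]

theorem CD_mul {a b : ℕ} {P Q : MvPolynomial γ (MvPolynomial ι ℂ)} (hP : CD a P) (hQ : CD b Q) :
    CD (a + b) (P * Q) := by
  classical
  intro m
  rw [coeff_mul]
  refine totalDegree_finsetSum_le fun x _ => ?_
  exact (totalDegree_mul _ _).trans (add_le_add (hP _) (hQ _))

theorem CD_sum {a : ℕ} {κ : Type*} (s : Finset κ) (P : κ → MvPolynomial γ (MvPolynomial ι ℂ))
    (hP : ∀ k ∈ s, CD a (P k)) : CD a (∑ k ∈ s, P k) := by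
  intro m
  rw [coeff_sum]
  exact totalDegree_finsetSum_le fun k hk => hP k hk m

theorem CD_lin [Fintype γ] (y : γ → MvPolynomial ι ℂ) (hy : ∀ j, (y j).totalDegree ≤ 1) :
    CD 1 (lin y) := by
  classical
  unfold lin
  refine CD_sum _ _ fun j _ m => ?_
  rw [coeff_C_mul, coeff_X]
  split_ifs
  · rw [mul_one]
    exact hy j
  · rw [mul_zero, totalDegree_zero]
    exact Nat.zero_le _

theorem CD_prod [Fintype γ] (S : Finset ρ) (y : ρ → γ → MvPolynomial ι ℂ)
    (hy : ∀ i j, (y i j).totalDegree ≤ 1) : CD S.card (∏ i ∈ S, lin (y i)) := by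
  classical
  induction S using Finset.induction_on with
  | empty =>
    rw [Finset.prod_empty, Finset.card_empty]
    exact CD_one
  | insert a S ha ih =>
    rw [Finset.prod_insert ha, Finset.card_insert_of_notMem ha, Nat.add_comm]
    exact CD_mul (CD_lin _ (hy a)) ih

theorem sig_degree [Fintype ρ] [Fintype γ] [DecidableEq γ] (r : ℕ)
    (y : ρ → γ → MvPolynomial ι ℂ) (hy : ∀ i j, (y i j).totalDegree ≤ 1) :
    (sig r y).totalDegree ≤ r := by
  classical
  unfold sig sqf esr
  refine totalDegree_finsetSum_le fun D _ => ?_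
  refine CD_sum _ _ (fun S hS => ?_) _
  have h1 := CD_prod S y hy
  rwa [(mem_powersetCard.mp hS).2] at h1

end Degree

theorem Y2_degree (N : ℕ) (i : Fin N) (j : Fin (2 * N)) : (Y2 N i j).totalDegree ≤ 1 := by
  unfold Y2
  refine totalDegree_finsetSum_le fun l _ => ?_
  split_ifs
  · rw [totalDegree_X]
  · rw [totalDegree_zero]
    exact Nat.zero_le _

/-- C2: the degree -/
theorem F2t_degree (N r : ℕ) (t : ℂ) : (F2t N r t).totalDegree ≤ r + 1 := by
  unfold F2t
  refine (totalDegree_add _ _).trans (max_le ?_ ?_)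
  · rw [totalDegree_X]
    omega
  · refine totalDegree_finsetSum_le fun z _ => ?_
    refine (sig_degree r _ fun i j => ?_).trans (Nat.le_succ r)
    refine (totalDegree_mul _ _).trans ?_
    rw [totalDegree_C, zero_add]
    exact Y2_degree N i j

end L5helper79.NC
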